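import Pool.Agent.Helper93.KS.St

/-!
# Module BMQ of project KS: weights multiplied by the primes of a box
-/

set_option autoImplicit false

noncomputable section

namespace Pool.Agent.Helper69.KS

open Finset Filter Topology Pool.Agent.Helper93.KS
open Pool.Agent.Helper15.AB (ee Kl StDB StMT)
open Pool.Agent.Helper9.TW (gm Qs fm StMER StC9)
open Pool.Agent.Helper18.TR (StLevel)
open Pool.Agent.Helper93.KP (gk vk tk rn gn TK qk StC8P StVLP StRTS StWEI)

private theorem mem_bq {a : ℕ} {ω : ℝ} {i p : ℕ} (hp : p ∈ bq a ω i) :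
    p.Prime ∧ (a : ℝ) ^ ((i : ℝ) * ω) ≤ (p : ℝ) ∧ (p : ℝ) < (a : ℝ) ^ (((i : ℝ) + 1) * ω) := by
  unfold bq at hp
  simp only [mem_filter, mem_range] at hp
  exact ⟨hp.2.1, hp.2.2, Nat.lt_ceil.mp hp.1⟩

private theorem mem_Pq {a : ℕ} {ω : ℝ} {j0 j p : ℕ} :
    p ∈ Pq a ω j0 j ↔ ∃ i, j0 ≤ i ∧ i < j ∧ p ∈ bq a ω i := by
  unfold Pq
  simp only [mem_biUnion, mem_Ico]
  constructor
  · rintro ⟨i, h1, h2⟩
    exact ⟨i, h1.1, h1.2, h2⟩
  · rintro ⟨i, h1, h2, h3⟩
    exact ⟨i, ⟨h1, h2⟩, h3⟩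

private theorem not_dvd {a : ℕ} {ω : ℝ} {j0 j j' m p : ℕ} (ha : 2 ≤ a) (hω : 0 < ω) (hj : j ≤ j')
    (hm : ∀ p : ℕ, p.Prime → p ∣ m → p ∈ Pq a ω j0 j) (hp : p ∈ bq a ω j') : ¬ p ∣ m := by
  intro h
  have ha1 : (1 : ℝ) ≤ a := by exact_mod_cast (by omega : 1 ≤ a)
  obtain ⟨i, _, hij, hpi⟩ := mem_Pq.mp (hm p (mem_bq hp).1 h)
  have h1 := (mem_bq hpi).2.2
  have h2 := (mem_bq hp).2.1
  have h3 : (a : ℝ) ^ (((i : ℝ) + 1) * ω) ≤ (a : ℝ) ^ ((j' : ℝ) * ω) := by
    apply Real.rpow_le_rpow_of_exponent_le ha1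
    apply mul_le_mul_of_nonneg_right _ hω.le
    have : i + 1 ≤ j' := by omega
    exact_mod_cast this
  linarith

private theorem sw_mul {a j0 j j' : ℕ} {ω x B : ℝ} {lam : ℕ → ℝ} (ha : 2 ≤ a) (hω : 0 < ω)
    (hB : 0 ≤ B) (hj : j0 ≤ j) (hjj : j ≤ j') (hS : SW a ω j0 j x B lam) :
    SW a ω j0 (j' + 1) (x + ((j' : ℝ) + 1) * ω) B (bmq a ω j' lam) := by
  have ha1 : (1 : ℝ) ≤ a := by exact_mod_cast (by omega : 1 ≤ a)
  have ha0 : (0 : ℝ) < a := by linarith
  intro q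
  by_cases hex : ∃ p ∈ (bq a ω j').filter (fun p => p ∣ q), lam (q / p) ≠ 0
  · obtain ⟨p₀, hp₀, hne⟩ := hex
    have hp₀' := mem_filter.1 hp₀
    obtain ⟨hB0, h0⟩ := hS (q / p₀)
    obtain ⟨hsq, hpr, hle⟩ := h0 hne
    have hnd := not_dvd ha hω hjj hpr hp₀'.1
    have hpp := (mem_bq hp₀'.1).1
    have hmul : p₀ * (q / p₀) = q := Nat.mul_div_cancel' hp₀'.2
    have heq : bmq a ω j' lam q = lam (q / p₀) := by
      unfold bmq
      rw [Finset.sum_eq_single p₀]
      · intro p hp hpp'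
        by_contra h0
        have hp' := mem_filter.1 hp
        have h1 := not_dvd ha hω hjj ((hS (q / p)).2 h0).2.1 hp₀'.1
        apply h1
        have h2 : p₀ ∣ p * (q / p) := by rw [Nat.mul_div_cancel' hp'.2]; exact hp₀'.2
        rcases (hpp.dvd_mul).mp h2 with h3 | h3
        · exact absurd ((Nat.prime_dvd_prime_iff_eq hpp (mem_bq hp'.1).1).mp h3).symm hpp'
        · exact h3
      · intro h; exact absurd hp₀ h
    rw [heq]
    refine ⟨hB0, fun _ => ⟨?_, ?_, ?_⟩⟩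
    · rw [← hmul]
      exact (Nat.squarefree_mul ((Nat.Prime.coprime_iff_not_dvd hpp).mpr hnd)).mpr
        ⟨hpp.prime.squarefree, hsq⟩
    · intro p hp hd
      rw [← hmul] at hd
      rcases (hp.dvd_mul).mp hd with h | h
      · rw [(Nat.prime_dvd_prime_iff_eq hp hpp).mp h]
        exact mem_Pq.mpr ⟨j', by omega, by omega, hp₀'.1⟩
      · obtain ⟨i, hi1, hi2, hi3⟩ := mem_Pq.mp (hpr p hp h)
        exact mem_Pq.mpr ⟨i, hi1, by omega, hi3⟩
    · have hq : (q : ℝ) = (p₀ : ℝ) * ((q / p₀ : ℕ) : ℝ) := by rw [← Nat.cast_mul, hmul]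
      rw [hq, add_comm x, Real.rpow_add ha0]
      exact mul_le_mul (mem_bq hp₀'.1).2.2.le hle (Nat.cast_nonneg _) (by positivity)
  · push Not at hex
    have h0 : bmq a ω j' lam q = 0 := Finset.sum_eq_zero hex
    rw [h0]
    exact ⟨by simpa using hB, fun h => absurd rfl h⟩

private theorem sum_mul_aux {A p : ℕ} (hp : p.Prime) (g l : ℕ → ℝ)
    (h : ∀ q, l q ≠ 0 → p * q ≤ A ∧ ¬ p ∣ q ∧ q ≠ 0) :
    ∑ q ∈ (range (A + 1)).filter (fun q => p ∣ q), l (q / p) * ∏ r ∈ q.primeFactors, g r =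
      g p * ∑ q ∈ range (A + 1), l q * ∏ r ∈ q.primeFactors, g r := by
  have hprod : ∀ q, l q ≠ 0 →
      ∏ r ∈ (p * q).primeFactors, g r = g p * ∏ r ∈ q.primeFactors, g r := by
    intro q hq
    obtain ⟨_, hnd, h0⟩ := h q hq
    rw [Nat.primeFactors_mul hp.ne_zero h0, hp.primeFactors, Finset.prod_union,
      Finset.prod_singleton]
    rw [Finset.disjoint_singleton_left]
    exact fun hm => hnd (Nat.dvd_of_mem_primeFactors hm)
  have hl0 : ∀ q, g p * (l q * ∏ r ∈ q.primeFactors, g r) ≠ 0 → l q ≠ 0 := by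
    intro q hne h0
    apply hne
    rw [h0]
    simp
  rw [Finset.mul_sum]
  symm
  refine Finset.sum_bij_ne_zero (fun q _ _ => p * q) ?_ ?_ ?_ ?_
  · intro q hq hne
    rw [mem_filter, mem_range]
    exact ⟨by have := (h q (hl0 q hne)).1; omega, Dvd.intro q rfl⟩
  · intro q₁ _ _ q₂ _ _ he
    exact Nat.eq_of_mul_eq_mul_left hp.pos he
  · intro q hq hne
    rw [mem_filter, mem_range] at hq
    obtain ⟨hq1, k, rfl⟩ := hq
    rw [Nat.mul_div_cancel_left k hp.pos] at hne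
    have hl : l k ≠ 0 := left_ne_zero_of_mul hne
    refine ⟨k, ?_, ?_, rfl⟩
    · rw [mem_range]
      have : k ≤ p * k := Nat.le_mul_of_pos_left k hp.pos
      omega
    · rw [hprod k hl] at hne
      intro h0
      apply hne
      rw [← h0]
      ring
  · intro q hq hne
    rw [Nat.mul_div_cancel_left q hp.pos, hprod q (hl0 q hne)]
    ring

private theorem div_sum {p m : ℕ} (hp : p.Prime) (hm : 1 ≤ m) (l : ℕ → ℝ)
    (h : ∀ q, l q ≠ 0 → ¬ p ∣ q) :
    ∑ q ∈ m.divisors.filter (fun q => p ∣ q), l (q / p) =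
      if p ∣ m then ∑ q ∈ m.divisors, l q else 0 := by
  split_ifs with hpm
  · symm
    refine Finset.sum_bij_ne_zero (fun q _ _ => p * q) ?_ ?_ ?_ ?_
    · intro q hq hne
      rw [mem_filter, Nat.mem_divisors]
      have hqm := (Nat.mem_divisors.1 hq).1
      exact ⟨⟨Nat.Coprime.mul_dvd_of_dvd_of_dvd
        ((Nat.Prime.coprime_iff_not_dvd hp).mpr (h q hne)) hpm hqm, by omega⟩, Dvd.intro q rfl⟩
    · intro q₁ _ _ q₂ _ _ he
      exact Nat.eq_of_mul_eq_mul_left hp.pos he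
    · intro q hq hne
      rw [mem_filter, Nat.mem_divisors] at hq
      obtain ⟨⟨hqm, hm0⟩, k, rfl⟩ := hq
      rw [Nat.mul_div_cancel_left k hp.pos] at hne
      exact ⟨k, Nat.mem_divisors.2 ⟨(Dvd.intro_left p rfl).trans hqm, hm0⟩, hne, rfl⟩
    · intro q hq hne
      rw [Nat.mul_div_cancel_left q hp.pos]
  · rw [Finset.filter_false_of_mem, Finset.sum_empty]
    intro q hq hpq
    exact hpm (hpq.trans (Nat.mem_divisors.1 hq).1)

theorem hBMQ : StBMQ := by
  intro a j0 j j' ω x B lam g ha hω hB hx hj hjj hle hS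
  have ha1 : (1 : ℝ) ≤ a := by exact_mod_cast (by omega : 1 ≤ a)
  have ha0 : (0 : ℝ) < a := by linarith
  have hnd : ∀ p ∈ bq a ω j', ∀ q, lam q ≠ 0 → ¬ p ∣ q := fun p hp q hq =>
    not_dvd ha hω hjj ((hS q).2 hq).2.1 hp
  refine ⟨sw_mul ha hω hB hj hjj hS, ?_, ?_⟩
  · have key : ∀ p ∈ bq a ω j', ∀ q, lam q ≠ 0 → p * q ≤ a ^ 2 := by
      intro p hp q hq
      have h1 := ((hS q).2 hq).2.2
      have h2 := (mem_bq hp).2.2.le
      have h3 : (p : ℝ) * q ≤ (a : ℝ) ^ (((j' : ℝ) + 1) * ω) * (a : ℝ) ^ x :=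
        mul_le_mul h2 h1 (Nat.cast_nonneg _) (by positivity)
      rw [← Real.rpow_add ha0] at h3
      have h4 : (a : ℝ) ^ (((j' : ℝ) + 1) * ω + x) ≤ (a : ℝ) ^ (2 : ℝ) :=
        Real.rpow_le_rpow_of_exponent_le ha1 (by linarith)
      have h5 : ((p * q : ℕ) : ℝ) ≤ ((a ^ 2 : ℕ) : ℝ) := by
        push_cast
        calc (p : ℝ) * q ≤ _ := h3
          _ ≤ _ := h4
          _ = _ := by norm_num
      exact_mod_cast h5
    unfold mg Gb bmq
    rw [Finset.sum_mul]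
    calc ∑ q ∈ range (a ^ 2 + 1), (∑ p ∈ (bq a ω j').filter (fun p => p ∣ q), lam (q / p)) *
          ∏ r ∈ q.primeFactors, g r
        = ∑ q ∈ range (a ^ 2 + 1), ∑ p ∈ bq a ω j',
            (if p ∣ q then lam (q / p) * ∏ r ∈ q.primeFactors, g r else 0) := by
          apply Finset.sum_congr rfl
          intro q _
          rw [Finset.sum_filter, Finset.sum_mul]
          apply Finset.sum_congr rfl
          intro p _
          split_ifs
          · rfl
          · simp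
      _ = ∑ p ∈ bq a ω j', ∑ q ∈ range (a ^ 2 + 1),
            (if p ∣ q then lam (q / p) * ∏ r ∈ q.primeFactors, g r else 0) := Finset.sum_comm
      _ = _ := by
          apply Finset.sum_congr rfl
          intro p hp
          rw [← Finset.sum_filter]
          exact sum_mul_aux (mem_bq hp).1 g lam fun q hq =>
            ⟨key p hp q hq, hnd p hp q hq, ((hS q).2 hq).1.ne_zero⟩
  · intro m hm
    unfold bmq ejq
    calc ∑ q ∈ m.divisors, ∑ p ∈ (bq a ω j').filter (fun p => p ∣ q), lam (q / p)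
        = ∑ q ∈ m.divisors, ∑ p ∈ bq a ω j', (if p ∣ q then lam (q / p) else 0) := by
          apply Finset.sum_congr rfl
          intro q _
          rw [Finset.sum_filter]
      _ = ∑ p ∈ bq a ω j', ∑ q ∈ m.divisors, (if p ∣ q then lam (q / p) else 0) :=
          Finset.sum_comm
      _ = ∑ p ∈ bq a ω j', (if p ∣ m then ∑ q ∈ m.divisors, lam q else 0) := by
          apply Finset.sum_congr rfl
          intro p hp
          rw [← Finset.sum_filter]
          exact div_sum (mem_bq hp).1 hm lam (hnd p hp)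
      _ = _ := by
          rw [← Finset.sum_filter, Finset.sum_const, nsmul_eq_mul]

end Pool.Agent.Helper69.KS
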